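import Pool.Agent.N343.AS.Stm

/-!
# Project AS, part UNQ: uniqueness of mixed radix digits
-/

set_option autoImplicit false

namespace Pool.Agent.N310.ASUNQ

open Finset Pool.Agent.N343.AS

theorem Q_mono : Monotone Q := monotone_nat_of_le_succ fun n => by
  show Q n ≤ Q n + (n + 5)
  omega

theorem main : S_UNQ := by
  intro N i ν m hi hν hsum
  have key : ∀ d l : ℕ, i < l → l ≤ N → N - l = d → ν l = 0 := by
    intro d
    induction d using Nat.strong_induction_on with
    | _ d ih =>
      intro l hil hlN hd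
      obtain ⟨k, rfl⟩ : ∃ k, l = k + 1 := ⟨l - 1, by omega⟩
      have hz : ∀ l', k + 1 < l' → l' ≤ N → ν l' = 0 := fun l' h1 h2 =>
        ih (N - l') (by omega) l' (by omega) h2 rfl
      have hQk : Q (k + 1) = Q k + (k + 5) := rfl
      have hQN : Q (k + 1) ≤ Q N := Q_mono hlN
      have hexp : Q N - Q k = (k + 5) + (Q N - Q (k + 1)) := by omega
      have hmem : k + 1 ∈ range (N + 1) := by simp only [mem_range]; omega
      have hdiv : 2 ^ (Q N - Q k) ∣ ∑ l' ∈ (range (N + 1)).erase (k + 1), ν l' * 2 ^ (Q N - Q l') := by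
        refine Finset.dvd_sum fun l' hl' => ?_
        rw [Finset.mem_erase, Finset.mem_range] at hl'
        rcases Nat.lt_or_gt_of_ne hl'.1 with h | h
        · refine Dvd.dvd.mul_left (pow_dvd_pow 2 ?_) _
          have := Q_mono (show l' ≤ k by omega)
          omega
        · rw [hz l' h (by omega), zero_mul]
          exact dvd_zero _
      have hR : 2 ^ (Q N - Q k) ∣ m * 2 ^ (Q N - Q i) := by
        refine Dvd.dvd.mul_left (pow_dvd_pow 2 ?_) _
        have := Q_mono (show i ≤ k by omega)
        omega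
      rw [← hsum, ← Finset.add_sum_erase _ _ hmem] at hR
      have h1 : 2 ^ (Q N - Q k) ∣ ν (k + 1) * 2 ^ (Q N - Q (k + 1)) :=
        (Nat.dvd_add_left hdiv).1 hR
      rw [hexp, pow_add] at h1
      have h2 : 2 ^ (k + 5) ∣ ν (k + 1) := Nat.dvd_of_mul_dvd_mul_right (by positivity) h1
      have h3 := hν (k + 1)
      have h4 : 0 < 2 ^ (k + 1 + 4) := by positivity
      have h5 : k + 1 + 4 = k + 5 := by omega
      rw [h5] at h3 h4
      exact Nat.eq_zero_of_dvd_of_lt h2 (by omega)
  intro l h1 h2
  exact key (N - l) l h1 h2 rfl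

end Pool.Agent.N310.ASUNQ
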